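import Pool.Agent.W147.PS.Scale

set_option autoImplicit false
set_option maxHeartbeats 2000000

/-! # From integers without primes nearby to prime gaps -/

namespace Pool.Agent.U55.SD

open Filter
open Pool.Agent.W147.PS (ff ff_compare ev_pow)

/-- the record scale is small -/
lemma ff_small (κ : ℝ) (hκ : 0 < κ) : ∀ᶠ x : ℝ in atTop, κ * ff x ≤ x / 2 := by
  have t1 : Tendsto Real.log atTop atTop := Real.tendsto_log_atTop
  have t2 : Tendsto (fun M : ℝ => Real.log (Real.log M)) atTop atTop := t1.comp t1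
  have t3 : Tendsto (fun M : ℝ => Real.log (Real.log (Real.log M))) atTop atTop := t1.comp t2
  have h0 := (Real.isLittleO_pow_log_id_atTop (n := 3)).bound (show (0 : ℝ) < 1 / (2 * κ) by positivity)
  filter_upwards [h0, t1.eventually_ge_atTop 1, t2.eventually_ge_atTop 1, t3.eventually_ge_atTop 1,
    eventually_ge_atTop (1 : ℝ)] with x h1 h2 h3 h4 h5
  rw [Real.norm_of_nonneg (by positivity), id, Real.norm_of_nonneg (by linarith)] at h1
  have h6 : ff x ≤ Real.log x ^ 3 := by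
    unfold ff
    have h7 : Real.log (Real.log (Real.log (Real.log x))) ≤ Real.log (Real.log (Real.log x)) := by
      have := Real.log_le_sub_one_of_pos (show 0 < Real.log (Real.log (Real.log x)) by linarith)
      linarith
    have h8 : Real.log (Real.log x) ≤ Real.log x := by
      have := Real.log_le_sub_one_of_pos (show 0 < Real.log x by linarith)
      linarith
    rw [div_le_iff₀ (by positivity)]
    have h9 : (Real.log (Real.log x)) ^ 2 ≤ Real.log x ^ 2 := pow_le_pow_left₀ (by linarith) h8 2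
    have h10 : Real.log (Real.log (Real.log x)) ≤ Real.log (Real.log (Real.log x)) ^ 2 := by
      nlinarith
    calc Real.log x * (Real.log (Real.log x)) ^ 2 * Real.log (Real.log (Real.log (Real.log x))) ≤
          Real.log x * (Real.log (Real.log x)) ^ 2 * Real.log (Real.log (Real.log x)) ^ 2 := by
          apply mul_le_mul_of_nonneg_left (h7.trans h10)
          have : 0 ≤ Real.log x := by linarith
          positivity
      _ ≤ Real.log x * Real.log x ^ 2 * Real.log (Real.log (Real.log x)) ^ 2 := by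
          apply mul_le_mul_of_nonneg_right _ (by positivity)
          exact mul_le_mul_of_nonneg_left h9 (by linarith)
      _ = _ := by ring
  calc κ * ff x ≤ κ * Real.log x ^ 3 := mul_le_mul_of_nonneg_left h6 hκ.le
    _ ≤ κ * (1 / (2 * κ) * x) := mul_le_mul_of_nonneg_left h1 hκ.le
    _ = x / 2 := by field_simp

/-- the primes next to an integer with no primes nearby -/
lemma gap_of (y : ℕ) (hy : 4 ≤ y) (R : ℝ) (h : ∀ p : ℕ, p.Prime → R < |(p : ℝ) - y|) :
    ∃ n : ℕ, (Nat.nth Nat.Prime n : ℝ) + R ≤ y ∧ (y : ℝ) + R ≤ Nat.nth Nat.Prime (n + 1) ∧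
      y ≤ 3 * Nat.nth Nat.Prime n ∧ Nat.nth Nat.Prime n ≤ y := by
  classical
  obtain ⟨p, hp, hp1, hp2⟩ := Nat.exists_prime_lt_and_le_two_mul ((y - 1) / 2) (by omega)
  have hpy : p < y := by omega
  have hp3 : y ≤ 3 * p := by omega
  have hc : Nat.count Nat.Prime p < Nat.count Nat.Prime y := Nat.count_strict_mono hp hpy
  obtain ⟨c, hc'⟩ : ∃ c, Nat.count Nat.Prime y = c + 1 := ⟨Nat.count Nat.Prime y - 1, by omega⟩
  have h1 : Nat.nth Nat.Prime c < y := Nat.nth_lt_of_lt_count (by omega)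
  have h2 : y ≤ Nat.nth Nat.Prime (c + 1) := by
    rw [← hc']
    exact Nat.le_nth_count Nat.infinite_setOfPred_prime y
  have h3 : p ≤ Nat.nth Nat.Prime c := by
    calc p = Nat.nth Nat.Prime (Nat.count Nat.Prime p) := (Nat.nth_count hp).symm
      _ ≤ _ := Nat.nth_monotone Nat.infinite_setOfPred_prime (by omega)
  have g1 := h _ (Nat.prime_nth_prime c)
  have g2 := h _ (Nat.prime_nth_prime (c + 1))
  have h1' : (Nat.nth Nat.Prime c : ℝ) < y := by exact_mod_cast h1
  have h2' : (y : ℝ) ≤ Nat.nth Nat.Prime (c + 1) := by exact_mod_cast h2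
  rw [abs_of_neg (by linarith)] at g1
  rw [abs_of_nonneg (by linarith)] at g2
  exact ⟨c, by linarith, by linarith, by omega, h1.le⟩

/-- the integer `y ∈ [N, N ^ K]` is in the middle of a record gap if the integers nearby have small
prime factors -/
theorem inGap (K : ℕ) (κ ε : ℝ) (hκ : 0 < κ) (hε : ε < 1) :
    ∀ᶠ x : ℝ in atTop, ∀ N : ℕ, (N : ℝ) = x → ∀ y : ℤ, (N : ℤ) ≤ y → y ≤ (N : ℤ) ^ K →
      (∀ n : ℤ, |(n : ℝ) - y| ≤ κ * ff N → ∃ l : ℕ, l.Prime ∧ (l : ℝ) ≤ (N : ℝ) ^ ε ∧ (l : ℤ) ∣ n) →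
      ∃ n : ℕ, (Nat.nth Nat.Prime n : ℝ) + κ / (32 * (K + 1)) * ff (Nat.nth Nat.Prime n) ≤ y ∧
        (y : ℝ) + κ / (32 * (K + 1)) * ff (Nat.nth Nat.Prime n) ≤ Nat.nth Nat.Prime (n + 1) := by
  have hη0 : (0 : ℝ) < 1 / ((K : ℝ) + 1) := by positivity
  have hη1 : 1 / ((K : ℝ) + 1) ≤ 1 := by
    rw [div_le_one (by positivity)]
    have : (0 : ℝ) ≤ K := Nat.cast_nonneg _
    linarith
  obtain ⟨X₁, hX₁⟩ := eventually_atTop.mp (ff_compare (1 / ((K : ℝ) + 1)) hη0 hη1)
  have hlog := ff_small κ hκ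
  filter_upwards [eventually_ge_atTop (1 : ℝ), eventually_ge_atTop (9 : ℝ),
    eventually_ge_atTop (3 * X₁), ev_pow ε 1 3 hε, hlog] with x hx1 hx9 hxX e1 e2 N hNx y hy1 hy2 hy
  rw [Real.rpow_one] at e1
  obtain ⟨m, rfl⟩ : ∃ m : ℕ, y = m := ⟨y.toNat, by omega⟩
  have hm1 : (N : ℝ) ≤ m := by exact_mod_cast hy1
  have hm4 : 4 ≤ m := by
    have : (4 : ℝ) ≤ m := by linarith
    exact_mod_cast this
  obtain ⟨n, g1, g2, g3, g4⟩ := gap_of m hm4 (κ * ff N) (by
    intro p hp
    by_contra hlt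
    rw [not_lt] at hlt
    obtain ⟨l, hl, hl1, hl2⟩ := hy p (by push_cast; exact hlt)
    have h1 : l ∣ p := by exact_mod_cast hl2
    have h2 := (Nat.prime_dvd_prime_iff_eq hl hp).1 h1
    have h3 := (abs_le.1 hlt).1
    rw [hNx] at h3 hm1 hl1
    rw [h2] at hl1
    linarith)
  have hp0 : (m : ℝ) ≤ 3 * (Nat.nth Nat.Prime n : ℝ) := by exact_mod_cast g3
  have hpm : (Nat.nth Nat.Prime n : ℝ) ≤ m := by exact_mod_cast g4
  set P : ℝ := (Nat.nth Nat.Prime n : ℝ) with hP
  have hPx : x / 3 ≤ P := by rw [hNx] at hm1; linarith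
  have hP0 : 0 < P := by linarith
  have hPK : P ≤ x ^ K := by
    have h1 : (m : ℝ) ≤ (N : ℝ) ^ K := by exact_mod_cast hy2
    rw [hNx] at h1
    linarith
  have h5 := ((hX₁ P (by linarith)).2 x (by
    have h6 : P ^ (1 / ((K : ℝ) + 1)) ≤ (x ^ ((K : ℝ) + 1)) ^ (1 / ((K : ℝ) + 1)) := by
      apply Real.rpow_le_rpow hP0.le _ hη0.le
      refine hPK.trans ?_
      rw [← Real.rpow_natCast]
      exact Real.rpow_le_rpow_of_exponent_le hx1 (by linarith)
    refine h6.trans (le_of_eq ?_)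
    rw [← Real.rpow_mul (by linarith)]
    rw [mul_one_div_cancel (by positivity), Real.rpow_one]) (by
    nlinarith)).1
  have h7 : κ / (32 * (K + 1)) * ff P ≤ κ * ff N := by
    rw [hNx]
    calc κ / (32 * (K + 1)) * ff P = κ * (1 / ((K : ℝ) + 1) / 32 * ff P) := by
          field_simp
      _ ≤ _ := mul_le_mul_of_nonneg_left h5 hκ.le
  refine ⟨n, ?_, ?_⟩
  · push_cast
    linarith
  · push_cast
    linarith

end Pool.Agent.U55.SD
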