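import Pool.Agent.U55.SD.Var

set_option autoImplicit false

/-! # Boxes and residue classes -/

namespace Pool.Agent.U55.SD

open Finset

/-- the box `∏ (a j, b j]` -/
noncomputable def box {d : ℕ} (a b : Fin d → ℤ) : Finset (Fin d → ℤ) := Fintype.piFinset fun j => Ioc (a j) (b j)

lemma mem_box {d : ℕ} {a b x : Fin d → ℤ} : x ∈ box a b ↔ ∀ j, a j < x j ∧ x j ≤ b j := by
  unfold box
  simp [Fintype.mem_piFinset, mem_Ioc]

/-- the part of the box in a residue class -/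
noncomputable def cls {d : ℕ} (q : ℕ) (r a b : Fin d → ℤ) : Finset (Fin d → ℤ) :=
  (box a b).filter (fun x => ∀ j, (q : ℤ) ∣ x j - r j)

lemma mem_cls {d : ℕ} {q : ℕ} {r a b x : Fin d → ℤ} :
    x ∈ cls q r a b ↔ (∀ j, a j < x j ∧ x j ≤ b j) ∧ ∀ j, (q : ℤ) ∣ x j - r j := by
  unfold cls
  rw [mem_filter, mem_box]

lemma cls_card {d : ℕ} (q : ℕ) (r a b : Fin d → ℤ) :
    (cls q r a b).card = ∏ j, ((Ioc (a j) (b j)).filter (fun x => (q : ℤ) ∣ x - r j)).card := by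
  have : cls q r a b = Fintype.piFinset fun j => (Ioc (a j) (b j)).filter (fun x => (q : ℤ) ∣ x - r j) := by
    ext x
    rw [mem_cls, Fintype.mem_piFinset]
    simp only [mem_filter, mem_Ioc]
    exact ⟨fun h j => ⟨h.1 j, h.2 j⟩, fun h => ⟨fun j => (h j).1, fun j => (h j).2⟩⟩
  rw [this, Fintype.card_piFinset]

lemma cls1_card (q : ℕ) (hq : 0 < q) (r a b : ℤ) (hab : a ≤ b) :
    |(((Ioc a b).filter (fun x => (q : ℤ) ∣ x - r)).card : ℝ) - ((b : ℝ) - a) / q| ≤ 1 := by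
  have hq' : (0 : ℤ) < q := by exact_mod_cast hq
  have h1 : ((Ioc a b).filter (fun x => (q : ℤ) ∣ x - r)).card =
      ((Ioc a b).filter (fun x => x ≡ r [ZMOD (q : ℤ)])).card := by
    congr 1
    ext x
    simp only [mem_filter]
    constructor
    · rintro ⟨h1, h2⟩
      exact ⟨h1, (Int.modEq_iff_dvd.2 h2).symm⟩
    · rintro ⟨h1, h2⟩
      exact ⟨h1, Int.modEq_iff_dvd.1 h2.symm⟩
  rw [h1]
  have h2 := Int.Ioc_filter_modEq_card a b hq' r
  have h3 : (((Ioc a b).filter (fun x => x ≡ r [ZMOD (q : ℤ)])).card : ℤ) =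
      max (⌊(b - r) / (q : ℚ)⌋ - ⌊(a - r) / (q : ℚ)⌋) 0 := by
    rw [h2]
    norm_cast
  have hq0 : (0 : ℚ) < q := by exact_mod_cast hq
  have h4 : ⌊((a : ℚ) - r) / (q : ℚ)⌋ ≤ ⌊((b : ℚ) - r) / (q : ℚ)⌋ := by
    apply Int.floor_le_floor
    have : (a : ℚ) ≤ b := by exact_mod_cast hab
    gcongr
  rw [max_eq_left (by linarith)] at h3
  have h5 := Int.floor_le (((b : ℚ) - r) / (q : ℚ))
  have h6 := Int.lt_floor_add_one (((b : ℚ) - r) / (q : ℚ))
  have h7 := Int.floor_le (((a : ℚ) - r) / (q : ℚ))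
  have h8 := Int.lt_floor_add_one (((a : ℚ) - r) / (q : ℚ))
  have h9 : ((b : ℚ) - a) / q = ((b : ℚ) - r) / (q : ℚ) - ((a : ℚ) - r) / (q : ℚ) := by
    rw [← sub_div]
    congr 1
    ring
  have h10 : ((((Ioc a b).filter (fun x => x ≡ r [ZMOD (q : ℤ)])).card : ℚ)) =
      (⌊((b : ℚ) - r) / (q : ℚ)⌋ : ℚ) - (⌊((a : ℚ) - r) / (q : ℚ)⌋ : ℚ) := by
    exact_mod_cast h3
  have h11 : |((((Ioc a b).filter (fun x => x ≡ r [ZMOD (q : ℤ)])).card : ℚ)) - ((b : ℚ) - a) / q| ≤ 1 := by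
    rw [h10, h9, abs_le]
    constructor <;> linarith
  have h12 : ((|((((Ioc a b).filter (fun x => x ≡ r [ZMOD (q : ℤ)])).card : ℚ)) - ((b : ℚ) - a) / q| : ℚ) : ℝ) ≤
      ((1 : ℚ) : ℝ) := by exact_mod_cast h11
  push_cast at h12
  exact h12

/-- products of perturbed numbers: upper bound -/
lemma prod_up {ι : Type*} (s : Finset ι) (x : ι → ℝ) (y : ℝ) (hx : ∀ i, 0 ≤ x i ∧ x i ≤ 1)
    (hy : 0 ≤ y) (hy1 : y ≤ 1) :
    ∏ i ∈ s, (x i + y) ≤ ∏ i ∈ s, x i + 2 ^ s.card * y := by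
  classical
  suffices h : ∏ i ∈ s, (x i + y) ≤ ∏ i ∈ s, x i + (2 ^ s.card - 1) * y by
    nlinarith
  induction s using Finset.induction_on with
  | empty => simp
  | insert i s hi ih =>
    rw [prod_insert hi, prod_insert hi, card_insert_of_notMem hi, pow_succ]
    obtain ⟨h0, h1⟩ := hx i
    have hP : ∏ i ∈ s, x i ≤ 1 := prod_le_one (fun j _ => (hx j).1) (fun j _ => (hx j).2)
    have hk : (1 : ℝ) ≤ 2 ^ s.card := one_le_pow₀ (by norm_num)
    calc (x i + y) * ∏ j ∈ s, (x j + y) ≤ (x i + y) * (∏ j ∈ s, x j + (2 ^ s.card - 1) * y) :=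
          mul_le_mul_of_nonneg_left ih (by linarith)
      _ = x i * ∏ j ∈ s, x j + y * ∏ j ∈ s, x j + (x i + y) * ((2 ^ s.card - 1) * y) := by ring
      _ ≤ x i * ∏ j ∈ s, x j + y * 1 + 2 * ((2 ^ s.card - 1) * y) := by
          have h2 : 0 ≤ (2 ^ s.card - 1) * y := mul_nonneg (by linarith) hy
          have h3 : (x i + y) * ((2 ^ s.card - 1) * y) ≤ 2 * ((2 ^ s.card - 1) * y) :=
            mul_le_mul_of_nonneg_right (by linarith) h2
          have h4 : y * ∏ j ∈ s, x j ≤ y * 1 := mul_le_mul_of_nonneg_left hP hy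
          linarith
      _ = _ := by ring

/-- products of perturbed numbers: lower bound -/
lemma prod_low {ι : Type*} (s : Finset ι) (x z : ι → ℝ) (y : ℝ) (hx : ∀ i, 0 ≤ x i ∧ x i ≤ 1)
    (hy : 0 ≤ y) (hz : ∀ i, x i - y ≤ z i) (hz0 : ∀ i, 0 ≤ z i) :
    ∏ i ∈ s, x i - s.card * y ≤ ∏ i ∈ s, z i := by
  classical
  induction s using Finset.induction_on with
  | empty => simp
  | insert i s hi ih =>
    rw [prod_insert hi, prod_insert hi, card_insert_of_notMem hi]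
    obtain ⟨h0, h1⟩ := hx i
    have hP : ∏ i ∈ s, x i ≤ 1 := prod_le_one (fun j _ => (hx j).1) (fun j _ => (hx j).2)
    have hP0 : 0 ≤ ∏ i ∈ s, x i := prod_nonneg (fun j _ => (hx j).1)
    have hz0' : 0 ≤ ∏ i ∈ s, z i := prod_nonneg (fun j _ => hz0 j)
    push_cast
    by_cases hneg : ∏ i ∈ s, x i - s.card * y < 0
    · have h2 : 0 ≤ z i * ∏ i ∈ s, z i := mul_nonneg (hz0 i) hz0'
      have h3 : x i * ∏ i ∈ s, x i ≤ 1 * ∏ i ∈ s, x i := mul_le_mul_of_nonneg_right h1 hP0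
      linarith
    · rw [not_lt] at hneg
      have h2 : (x i - y) * (∏ i ∈ s, x i - s.card * y) ≤ z i * ∏ i ∈ s, z i :=
        (mul_le_mul_of_nonneg_right (hz i) hneg).trans (mul_le_mul_of_nonneg_left ih (hz0 i))
      have h3 : (0 : ℝ) ≤ s.card * y := by positivity
      have h4 : x i * (s.card * y) ≤ 1 * (s.card * y) := mul_le_mul_of_nonneg_right h1 h3
      have h5 : y * ∏ i ∈ s, x i ≤ y * 1 := mul_le_mul_of_nonneg_left hP hy
      have h6 : 0 ≤ y * (s.card * y) := mul_nonneg hy h3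
      nlinarith

end Pool.Agent.U55.SD
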