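import Pool.Agent.U55.SD.Box

set_option autoImplicit false

/-! # Sets with few differences in common are well distributed in boxes and residue classes -/

namespace Pool.Agent.U55.SD

open Finset

/-- the multiples `q i`, `0 ≤ i < u`, in every coordinate -/
noncomputable def grid (d q u : ℕ) : Finset (Fin d → ℤ) :=
  Fintype.piFinset fun _ => (range u).image (fun i : ℕ => (q : ℤ) * i)

lemma grid_card (d q u : ℕ) (hq : 0 < q) : (grid d q u).card = u ^ d := by
  unfold grid
  rw [Fintype.card_piFinset]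
  have : ((range u).image (fun i : ℕ => (q : ℤ) * i)).card = u := by
    rw [card_image_of_injective, card_range]
    intro i j hij
    have hq' : (q : ℤ) ≠ 0 := by exact_mod_cast hq.ne'
    have := mul_left_cancel₀ hq' hij
    exact_mod_cast this
  simp only [this, prod_const, card_univ, Fintype.card_fin]

lemma mem_grid {d q u : ℕ} {x : Fin d → ℤ} :
    x ∈ grid d q u ↔ ∀ j, ∃ i : ℕ, i < u ∧ (q : ℤ) * i = x j := by
  unfold grid
  simp [Fintype.mem_piFinset]

lemma grid_le {d q u : ℕ} {x : Fin d → ℤ} (hx : x ∈ grid d q u) (hq : 0 < q) (j : Fin d) :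
    0 ≤ x j ∧ x j < q * u ∧ (q : ℤ) ∣ x j := by
  obtain ⟨i, hi, h⟩ := mem_grid.1 hx j
  rw [← h]
  have hq' : (0 : ℤ) < q := by exact_mod_cast hq
  refine ⟨by positivity, ?_, dvd_mul_right _ _⟩
  have : (i : ℤ) < u := by exact_mod_cast hi
  exact mul_lt_mul_of_pos_left this hq'

/-- the relative variance -/
noncomputable def relv {d : ℕ} (N q u : ℕ) (A : Finset (Fin d → ℤ)) : ℝ :=
  (N : ℝ) ^ d / ((u : ℝ) ^ d * A.card) +
    excess A ((A.card : ℝ) ^ 2 / (N : ℝ) ^ d) * (N : ℝ) ^ d / ((u : ℝ) ^ d * (A.card : ℝ) ^ 2) +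
    2 ^ d * ((q : ℝ) * u / N)

theorem var_le {d : ℕ} (N q u : ℕ) (hN : 0 < N) (hq : 0 < q) (hu : 0 < u) (hw : q * u ≤ N)
    (M : Fin d → ℤ) (A : Finset (Fin d → ℤ)) (hA : A ⊆ box M (fun j => M j + N))
    (hA0 : A.Nonempty) :
    ∑ t ∈ box (fun j => M j - (q * u : ℕ)) (fun j => M j + N),
      ((cnt A (grid d q u) t : ℝ) - (u : ℝ) ^ d * A.card / (N : ℝ) ^ d) ^ 2 ≤
      relv N q u A * ((u : ℝ) ^ (2 * d) * (A.card : ℝ) ^ 2 / (N : ℝ) ^ d) := by
  have hT : ∀ a ∈ A, ∀ j ∈ grid d q u,
      a - j ∈ box (fun j => M j - (q * u : ℕ)) (fun j => M j + N) := by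
    intro a ha j hj
    rw [mem_box]
    intro i
    have h1 := mem_box.1 (hA ha) i
    have h2 := grid_le hj hq i
    simp only [Pi.sub_apply]
    push_cast
    exact ⟨by linarith, by linarith⟩
  have hN0 : (0 : ℝ) < N := by exact_mod_cast hN
  have hu0 : (0 : ℝ) < u := by exact_mod_cast hu
  have hA1 : (0 : ℝ) < A.card := by exact_mod_cast hA0.card_pos
  have h1 := variance A (grid d q u) _ hT ((A.card : ℝ) ^ 2 / (N : ℝ) ^ d)
    ((u : ℝ) ^ d * A.card / (N : ℝ) ^ d) (by positivity)
  refine h1.trans ?_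
  rw [grid_card d q u hq]
  have h2 : ((box (fun j => M j - (q * u : ℕ)) (fun j => M j + N)).card : ℝ) =
      ((N : ℝ) + q * u) ^ d := by
    unfold box
    rw [Fintype.card_piFinset]
    have : ∀ j : Fin d, (Ioc (M j - ((q * u : ℕ) : ℤ)) (M j + N)).card = N + q * u := by
      intro j
      rw [Int.card_Ioc]
      omega
    simp only [this, prod_const, card_univ, Fintype.card_fin]
    push_cast
    ring
  rw [h2]
  have h3 : ((N : ℝ) + q * u) ^ d ≤ (N : ℝ) ^ d * (1 + 2 ^ d * ((q : ℝ) * u / N)) := by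
    have h4 := prod_up (univ : Finset (Fin d)) (fun _ => (1 : ℝ)) ((q : ℝ) * u / N)
      (fun _ => ⟨by norm_num, le_rfl⟩) (by positivity) (by
        rw [div_le_one hN0]
        exact_mod_cast hw)
    simp only [prod_const, card_univ, Fintype.card_fin, one_pow] at h4
    calc ((N : ℝ) + q * u) ^ d = (N : ℝ) ^ d * (1 + (q : ℝ) * u / N) ^ d := by
          rw [← mul_pow]
          congr 1
          field_simp
      _ ≤ _ := mul_le_mul_of_nonneg_left h4 (by positivity)
  have h5 : ((u : ℝ) ^ d * A.card / (N : ℝ) ^ d) ^ 2 * ((N : ℝ) + q * u) ^ d ≤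
      ((u : ℝ) ^ d * A.card / (N : ℝ) ^ d) ^ 2 * ((N : ℝ) ^ d * (1 + 2 ^ d * ((q : ℝ) * u / N))) :=
    mul_le_mul_of_nonneg_left h3 (by positivity)
  refine (add_le_add_right h5 _).trans (le_of_eq ?_)
  unfold relv
  have e1 : (u : ℝ) ^ (2 * d) = (u : ℝ) ^ d * (u : ℝ) ^ d := by rw [two_mul, pow_add]
  rw [e1]
  push_cast
  generalize hU : (u : ℝ) ^ d = U
  generalize hNN : (N : ℝ) ^ d = W
  have hU0 : U ≠ 0 := by rw [← hU]; positivity
  have hW0 : W ≠ 0 := by rw [← hNN]; positivity
  have hA2 : (A.card : ℝ) ≠ 0 := hA1.ne'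
  generalize excess A ((A.card : ℝ) ^ 2 / W) = X
  field_simp
  ring

/-- **Distribution in boxes and residue classes.** -/
theorem dist {d : ℕ} (N q u : ℕ) (hN : 0 < N) (hq : 0 < q) (hu : 0 < u) (hw : q * u + q ≤ N)
    (M : Fin d → ℤ) (A : Finset (Fin d → ℤ)) (hA : A ⊆ box M (fun j => M j + N))
    (hA0 : A.Nonempty) (a b : Fin d → ℤ) (hab : ∀ j, M j ≤ a j ∧ a j ≤ b j ∧ b j ≤ M j + N)
    (r : Fin d → ℤ) :
    |((A.filter (fun x => x ∈ cls q r a b)).card : ℝ) -
      A.card * ((∏ j, (((b j : ℝ) - a j) / N)) / (q : ℝ) ^ d)| ≤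
      A.card * (2 ^ d * (((q : ℝ) * u + q) / N) + Real.sqrt ((1 + 2 ^ d) * relv N q u A)) := by
  have hN0 : (0 : ℝ) < N := by exact_mod_cast hN
  have hu0 : (0 : ℝ) < u := by exact_mod_cast hu
  have hq0 : (0 : ℝ) < q := by exact_mod_cast hq
  have hq1 : (1 : ℝ) ≤ q := by exact_mod_cast hq
  have hA1 : (0 : ℝ) < A.card := by exact_mod_cast hA0.card_pos
  have hwl : q * u ≤ N := by omega
  set S := A.filter (fun x => x ∈ cls q r a b) with hS
  set x : Fin d → ℝ := fun j => ((b j : ℝ) - a j) / N with hx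
  have hxr : ∀ j, 0 ≤ x j ∧ x j ≤ 1 := by
    intro j
    obtain ⟨h1, h2, h3⟩ := hab j
    have h1' : (M j : ℝ) ≤ a j := by exact_mod_cast h1
    have h2' : (a j : ℝ) ≤ b j := by exact_mod_cast h2
    have h3' : (b j : ℝ) ≤ M j + N := by exact_mod_cast h3
    rw [hx]
    dsimp only
    constructor
    · apply div_nonneg (by linarith) hN0.le
    · rw [div_le_one hN0]; linarith
  set y : ℝ := ((q : ℝ) * u + q) / N with hy
  have hy0 : 0 ≤ y := by positivity
  have hy1 : y ≤ 1 := by
    rw [hy, div_le_one hN0]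
    exact_mod_cast hw
  have hV := var_le N q u hN hq hu hwl M A hA hA0
  set D := relv N q u A with hD
  have hD0 : 0 ≤ D := by
    rw [hD]
    unfold relv
    have := excess_nonneg A ((A.card : ℝ) ^ 2 / (N : ℝ) ^ d)
    positivity
  set P := (∏ j, x j) with hP
  have hP1 : P ≤ 1 := prod_le_one (fun j _ => (hxr j).1) (fun j _ => (hxr j).2)
  have hP0 : 0 ≤ P := prod_nonneg (fun j _ => (hxr j).1)
  have hq1d : (1 : ℝ) ≤ (q : ℝ) ^ d := one_le_pow₀ hq1
  have h2d : (1 : ℝ) ≤ 2 ^ d := one_le_pow₀ (by norm_num)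
  -- the counts
  have hcnt : ∀ c : ℕ, ∀ z : ℝ, (c : ℝ) * ((q : ℝ) ^ d / (N : ℝ) ^ d) ≤ P + 2 ^ d * y →
      z = (c : ℝ) / (N : ℝ) ^ d → z ≤ (P + 2 ^ d * y) / (q : ℝ) ^ d ∧
      Real.sqrt (c * (D * ((u : ℝ) ^ (2 * d) * (A.card : ℝ) ^ 2 / (N : ℝ) ^ d))) ≤
        (u : ℝ) ^ d * A.card * Real.sqrt ((1 + 2 ^ d) * D) := by
    intro c z hc hz
    have h1 : z ≤ (P + 2 ^ d * y) / (q : ℝ) ^ d := by
      rw [le_div_iff₀ (by positivity), hz]
      calc (c : ℝ) / (N : ℝ) ^ d * (q : ℝ) ^ d = (c : ℝ) * ((q : ℝ) ^ d / (N : ℝ) ^ d) := by ring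
        _ ≤ _ := hc
    refine ⟨h1, ?_⟩
    have h2 : z ≤ 1 + 2 ^ d := by
      refine h1.trans ((div_le_self (by positivity) hq1d).trans ?_)
      nlinarith
    have h3 : (c : ℝ) * (D * ((u : ℝ) ^ (2 * d) * (A.card : ℝ) ^ 2 / (N : ℝ) ^ d)) =
        ((u : ℝ) ^ d * A.card) ^ 2 * (z * D) := by
      rw [hz, mul_comm 2 d, pow_mul]
      field_simp
    rw [h3, Real.sqrt_mul (by positivity), Real.sqrt_sq (by positivity)]
    apply mul_le_mul_of_nonneg_left _ (by positivity)
    apply Real.sqrt_le_sqrt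
    exact mul_le_mul_of_nonneg_right h2 hD0
  have hupc : ∀ a' b' : Fin d → ℤ, (∀ j, (b' j : ℝ) - a' j ≤ ((b j : ℝ) - a j) + q * u) →
      (∀ j, a' j ≤ b' j ∨ True) →
      ((cls q r a' b').card : ℝ) * ((q : ℝ) ^ d / (N : ℝ) ^ d) ≤ P + 2 ^ d * y := by
    intro a' b' h1 _
    rw [cls_card]
    push_cast
    have h2 : ((q : ℝ) ^ d / (N : ℝ) ^ d) = ∏ _j : Fin d, ((q : ℝ) / N) := by
      rw [prod_const, card_univ, Fintype.card_fin, div_pow]
    rw [h2, ← prod_mul_distrib]
    have h3 := prod_up (univ : Finset (Fin d)) x y hxr hy0 hy1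
    rw [card_univ, Fintype.card_fin] at h3
    refine (prod_le_prod (fun j _ => by positivity) (fun j _ => ?_)).trans h3
    rcases le_or_gt (a' j) (b' j) with h | h
    · have h4 := (abs_le.1 (cls1_card q hq (r j) (a' j) (b' j) h)).2
      have h5 : (((Ioc (a' j) (b' j)).filter (fun x => (q : ℤ) ∣ x - r j)).card : ℝ) ≤
          ((b' j : ℝ) - a' j) / q + 1 := by linarith
      calc _ ≤ (((b' j : ℝ) - a' j) / q + 1) * ((q : ℝ) / N) :=
            mul_le_mul_of_nonneg_right h5 (by positivity)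
        _ = ((b' j : ℝ) - a' j + q) / N := by field_simp
        _ ≤ ((b j : ℝ) - a j + q * u + q) / N := by
            apply div_le_div_of_nonneg_right _ hN0.le
            linarith [h1 j]
        _ = x j + y := by rw [hx, hy]; dsimp only; ring
    · rw [Ioc_eq_empty (by omega)]
      simp only [filter_empty, card_empty, Nat.cast_zero, zero_mul]
      have := (hxr j).1
      linarith
  -- upper bound
  have hup : (S.card : ℝ) ≤ A.card * ((P + 2 ^ d * y) / (q : ℝ) ^ d + Real.sqrt ((1 + 2 ^ d) * D)) := by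
    have h1 := upper A (grid d q u) _ (cls q r (fun j => a j - (q * u : ℕ)) b) S (by
        intro t ht
        rw [mem_cls] at ht
        rw [mem_box]
        intro j
        have h3 := ht.1 j
        obtain ⟨h4, h5, h6⟩ := hab j
        push_cast at h3 ⊢
        exact ⟨by linarith, by linarith⟩) (filter_subset _ _) (by
        intro s hs j hj
        rw [hS, mem_filter, mem_cls] at hs
        rw [mem_cls]
        refine ⟨fun i => ?_, fun i => ?_⟩
        · have h3 := hs.2.1 i
          have h4 := grid_le hj hq i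
          simp only [Pi.sub_apply]
          push_cast
          exact ⟨by linarith, by linarith⟩
        · have h3 := hs.2.2 i
          have h4 := (grid_le hj hq i).2.2
          have : (s - j) i - r i = (s i - r i) - j i := by simp only [Pi.sub_apply]; ring
          rw [this]
          exact dvd_sub h3 h4) _ _ hV
    obtain ⟨h2, h3⟩ := hcnt (cls q r (fun j => a j - (q * u : ℕ)) b).card _ (hupc _ _ (by
      intro j
      push_cast
      linarith) (fun _ => Or.inr trivial)) rfl
    rw [grid_card d q u hq] at h1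
    push_cast at h1
    have h4 : (u : ℝ) ^ d * S.card ≤ (u : ℝ) ^ d * (A.card *
        ((P + 2 ^ d * y) / (q : ℝ) ^ d + Real.sqrt ((1 + 2 ^ d) * D))) := by
      refine (h1.trans (add_le_add_right h3 _)).trans ?_
      have h5 : (u : ℝ) ^ d * A.card / (N : ℝ) ^ d *
          ((cls q r (fun j => a j - (q * u : ℕ)) b).card : ℝ) =
          (u : ℝ) ^ d * A.card * (((cls q r (fun j => a j - (q * u : ℕ)) b).card : ℝ) / (N : ℝ) ^ d) := by
        ring
      push_cast at h5 h2
      rw [h5]
      have h6 : (u : ℝ) ^ d * A.card *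
          (((cls q r (fun j => a j - (q : ℤ) * (u : ℤ)) b).card : ℝ) / (N : ℝ) ^ d) ≤
          (u : ℝ) ^ d * A.card * ((P + 2 ^ d * y) / (q : ℝ) ^ d) :=
        mul_le_mul_of_nonneg_left h2 (by positivity)
      linarith
    exact le_of_mul_le_mul_left h4 (by positivity)
  -- lower bound
  have hlow : A.card * ((P - d * y) / (q : ℝ) ^ d - Real.sqrt ((1 + 2 ^ d) * D)) ≤ (S.card : ℝ) := by
    have h1 := lower A (grid d q u) _ (cls q r a (fun j => b j - (q * u : ℕ))) S (by
        intro t ht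
        rw [mem_cls] at ht
        rw [mem_box]
        intro j
        have h3 := ht.1 j
        obtain ⟨h4, h5, h6⟩ := hab j
        have hqu : (0 : ℤ) ≤ (q : ℤ) * u := by positivity
        push_cast at h3 ⊢
        exact ⟨by linarith, by linarith⟩) (by
        intro t ht j hj htA
        rw [mem_cls] at ht
        rw [hS, mem_filter, mem_cls]
        refine ⟨htA, fun i => ?_, fun i => ?_⟩
        · have h3 := ht.1 i
          have h4 := grid_le hj hq i
          simp only [Pi.add_apply]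
          push_cast at h3 ⊢
          exact ⟨by linarith, by linarith⟩
        · have h3 := ht.2 i
          have h4 := (grid_le hj hq i).2.2
          have : (t + j) i - r i = (t i - r i) + j i := by simp only [Pi.add_apply]; ring
          rw [this]
          exact dvd_add h3 h4) _ _ hV
    obtain ⟨h2, h3⟩ := hcnt (cls q r a (fun j => b j - (q * u : ℕ))).card _ (hupc _ _ (by
      intro j
      push_cast
      have : (0 : ℝ) ≤ (q : ℝ) * u := by positivity
      linarith) (fun _ => Or.inr trivial)) rfl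
    have h7 : P - d * y ≤ ((cls q r a (fun j => b j - (q * u : ℕ))).card : ℝ) *
        ((q : ℝ) ^ d / (N : ℝ) ^ d) := by
      rw [cls_card]
      push_cast
      have h2 : ((q : ℝ) ^ d / (N : ℝ) ^ d) = ∏ _j : Fin d, ((q : ℝ) / N) := by
        rw [prod_const, card_univ, Fintype.card_fin, div_pow]
      rw [h2, ← prod_mul_distrib]
      have h8 := prod_low (univ : Finset (Fin d)) x (fun j =>
        (((Ioc (a j) (b j - (q : ℤ) * (u : ℤ))).filter (fun x => (q : ℤ) ∣ x - r j)).card : ℝ) *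
          ((q : ℝ) / N)) y hxr hy0 (by
          intro j
          rcases le_or_gt (a j) (b j - (q : ℤ) * u) with h | h
          · have h4 := (abs_le.1 (cls1_card q hq (r j) (a j) (b j - (q : ℤ) * u) h)).1
            have h5 : ((b j : ℝ) - q * u - a j) / q - 1 ≤
                (((Ioc (a j) (b j - (q : ℤ) * u)).filter (fun x => (q : ℤ) ∣ x - r j)).card : ℝ) := by
              push_cast at h4
              linarith
            calc x j - y = (((b j : ℝ) - q * u - a j) / q - 1) * ((q : ℝ) / N) := by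
                  rw [hx, hy]; dsimp only; field_simp; ring
              _ ≤ _ := mul_le_mul_of_nonneg_right h5 (by positivity)
          · rw [Ioc_eq_empty (by omega)]
            simp only [filter_empty, card_empty, Nat.cast_zero, zero_mul]
            have h9 : (b j : ℝ) - q * u < a j := by exact_mod_cast h
            have : x j - y = ((b j : ℝ) - q * u - a j - q) / N := by
              rw [hx, hy]; dsimp only; ring
            rw [this]
            apply div_nonpos_of_nonpos_of_nonneg _ hN0.le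
            linarith) (fun j => by positivity)
      rw [card_univ, Fintype.card_fin] at h8
      exact h8
    rw [grid_card d q u hq] at h1
    push_cast at h1
    have h4 : (u : ℝ) ^ d * (A.card *
        ((P - d * y) / (q : ℝ) ^ d - Real.sqrt ((1 + 2 ^ d) * D))) ≤ (u : ℝ) ^ d * S.card := by
      refine le_trans ?_ (le_trans (sub_le_sub_left h3 _) h1)
      have h5 : (u : ℝ) ^ d * A.card / (N : ℝ) ^ d *
          ((cls q r a (fun j => b j - (q : ℤ) * (u : ℤ))).card : ℝ) =
          (u : ℝ) ^ d * A.card * (((cls q r a (fun j => b j - (q : ℤ) * (u : ℤ))).card : ℝ) /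
            (N : ℝ) ^ d) := by
        ring
      have h6 : (P - d * y) / (q : ℝ) ^ d ≤ ((cls q r a (fun j => b j - (q : ℤ) * (u : ℤ))).card : ℝ) /
            (N : ℝ) ^ d := by
        rw [div_le_iff₀ (by positivity)]
        push_cast at h7
        calc _ ≤ _ := h7
          _ = _ := by ring
      push_cast
      rw [h5]
      have h8 := mul_le_mul_of_nonneg_left h6 (show 0 ≤ (u : ℝ) ^ d * A.card by positivity)
      linarith
    exact le_of_mul_le_mul_left h4 (by positivity)
  have hd2 : (d : ℝ) ≤ 2 ^ d := by exact_mod_cast Nat.lt_two_pow_self.le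
  have hdy : (d : ℝ) * y ≤ 2 ^ d * y := mul_le_mul_of_nonneg_right hd2 hy0
  have h2y : 2 ^ d * y / (q : ℝ) ^ d ≤ 2 ^ d * y := div_le_self (by positivity) hq1d
  have hdy2 : (d : ℝ) * y / (q : ℝ) ^ d ≤ 2 ^ d * y := (div_le_self (by positivity) hq1d).trans hdy
  rw [abs_le]
  constructor
  · have h1 : A.card * ((P - d * y) / (q : ℝ) ^ d - Real.sqrt ((1 + 2 ^ d) * D)) =
        A.card * (P / (q : ℝ) ^ d) - A.card * (d * y / (q : ℝ) ^ d + Real.sqrt ((1 + 2 ^ d) * D)) := by
      ring
    rw [h1] at hlow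
    have h2 : (A.card : ℝ) * (d * y / (q : ℝ) ^ d + Real.sqrt ((1 + 2 ^ d) * D)) ≤
        A.card * (2 ^ d * y + Real.sqrt ((1 + 2 ^ d) * D)) :=
      mul_le_mul_of_nonneg_left (by linarith) hA1.le
    linarith
  · have h1 : A.card * ((P + 2 ^ d * y) / (q : ℝ) ^ d + Real.sqrt ((1 + 2 ^ d) * D)) =
        A.card * (P / (q : ℝ) ^ d) + A.card * (2 ^ d * y / (q : ℝ) ^ d +
          Real.sqrt ((1 + 2 ^ d) * D)) := by
      ring
    rw [h1] at hup
    have h2 : (A.card : ℝ) * (2 ^ d * y / (q : ℝ) ^ d + Real.sqrt ((1 + 2 ^ d) * D)) ≤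
        A.card * (2 ^ d * y + Real.sqrt ((1 + 2 ^ d) * D)) :=
      mul_le_mul_of_nonneg_left (by linarith) hA1.le
    linarith

end Pool.Agent.U55.SD
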