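import Pool.Agent.U55.SD.Dist
import Pool.Agent.N542.PT.Loc

set_option autoImplicit false
set_option maxHeartbeats 2000000

/-! # Many members of a set with few differences in common in record prime gaps -/

namespace Pool.Agent.U55.SD

open Finset Filter
open Pool.Agent.N542.PT (Crit Good WellDist)
open Pool.Agent.W147.PS (ff ff_compare ev_pow)

/-- the sum of all the numbers of representations -/
lemma sum_rep {G : Type*} [AddCommGroup G] [DecidableEq G] (A : Finset G) :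
    ∑ h ∈ (A ×ˢ A).image (fun z => z.2 - z.1), (rep A h : ℝ) = (A.card : ℝ) ^ 2 := by
  have h1 := card_eq_sum_card_image (fun z : G × G => z.2 - z.1) (A ×ˢ A)
  rw [card_product] at h1
  have h2 : ∀ h, ((A ×ˢ A).filter (fun z => z.2 - z.1 = h)).card = rep A h := by
    intro h
    unfold rep
    apply card_bij (fun z _ => z.1)
    · rintro ⟨x, y⟩ hz
      rw [mem_filter, mem_product] at hz
      rw [mem_filter]
      refine ⟨hz.1.1, ?_⟩
      have : x + h = y := by rw [← hz.2]; abel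
      rw [this]
      exact hz.1.2
    · rintro ⟨x, y⟩ hz ⟨x', y'⟩ hz' h'
      rw [mem_filter] at hz hz'
      have e1 : x = x' := h'
      have e2 : y - x = h := hz.2
      have e3 : y' - x' = h := hz'.2
      have e4 : y = h + x := by rw [← e2]; abel
      have e5 : y' = h + x' := by rw [← e3]; abel
      rw [e4, e5, e1]
    · intro x hx
      rw [mem_filter] at hx
      exact ⟨(x, x + h), mem_filter.2 ⟨mem_product.2 ⟨hx.1, hx.2⟩, by simp⟩, rfl⟩
  have h3 : (A.card * A.card : ℕ) = ∑ h ∈ (A ×ˢ A).image (fun z => z.2 - z.1), rep A h := by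
    rw [h1]
    exact sum_congr rfl fun h _ => h2 h
  rw [sq]
  exact_mod_cast h3.symm

lemma sum_rep_erase {G : Type*} [AddCommGroup G] [DecidableEq G] (A : Finset G)
    (hA : A.Nonempty) :
    ∑ h ∈ ((A ×ˢ A).image (fun z => z.2 - z.1)).erase 0, (rep A h : ℝ) =
      (A.card : ℝ) ^ 2 - A.card := by
  have h0 : (0 : G) ∈ (A ×ˢ A).image (fun z => z.2 - z.1) := by
    obtain ⟨x, hx⟩ := hA
    rw [mem_image]
    exact ⟨(x, x), mem_product.2 ⟨hx, hx⟩, sub_self x⟩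
  have h1 := add_sum_erase _ (fun h => (rep A h : ℝ)) h0
  rw [sum_rep, rep_zero] at h1
  linarith

/-- a set with at least two members and small excess is large -/
lemma card_large {G : Type*} [AddCommGroup G] [DecidableEq G] (A : Finset G) (h2 : 2 ≤ A.card)
    (lam : ℝ) (h : excess A lam < (A.card : ℝ) ^ 2 / 4) : 1 / 2 ≤ lam := by
  by_contra hlt
  rw [not_le] at hlt
  have hA : A.Nonempty := card_pos.1 (by omega)
  have h1 : ∑ h ∈ ((A ×ˢ A).image (fun z => z.2 - z.1)).erase 0, (rep A h : ℝ) / 2 ≤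
      excess A lam := by
    unfold excess
    apply sum_le_sum
    intro h hh
    refine le_trans ?_ (le_max_left _ _)
    rw [mem_erase, mem_image] at hh
    obtain ⟨-, ⟨x, y⟩, hxy, rfl⟩ := hh
    rw [mem_product] at hxy
    have h3 : 1 ≤ rep A (y - x) := by
      unfold rep
      apply card_pos.2
      refine ⟨x, ?_⟩
      rw [mem_filter]
      refine ⟨hxy.1, ?_⟩
      have : x + (y - x) = y := by abel
      rw [this]
      exact hxy.2
    have h4 : (1 : ℝ) ≤ rep A (y - x) := by exact_mod_cast h3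
    dsimp only
    linarith
  rw [← sum_div, sum_rep_erase A hA] at h1
  have h5 : (2 : ℝ) ≤ A.card := by exact_mod_cast h2
  nlinarith

/-- sets with at most `g` representations of every nonzero difference and nearly maximal size -/
lemma excess_of_le {G : Type*} [AddCommGroup G] [DecidableEq G] (A : Finset G) (hA : A.Nonempty)
    (g : ℕ) (hg : ∀ h, h ≠ 0 → rep A h ≤ g) (τ lam : ℝ) (hτ : 0 ≤ τ)
    (hlam0 : 0 ≤ lam) (hlam : (1 - τ) * g ≤ lam) : excess A lam ≤ τ * (A.card : ℝ) ^ 2 := by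
  have h1 : excess A lam ≤ ∑ h ∈ ((A ×ˢ A).image (fun z => z.2 - z.1)).erase 0,
      τ * (rep A h : ℝ) := by
    unfold excess
    apply sum_le_sum
    intro h hh
    have h0 : (0 : ℝ) ≤ rep A h := Nat.cast_nonneg _
    apply max_le _ (mul_nonneg hτ h0)
    have h2 : (rep A h : ℝ) ≤ g := by exact_mod_cast hg h (ne_of_mem_erase hh)
    rcases le_or_gt τ 1 with h3 | h3
    · nlinarith
    · nlinarith
  rw [← mul_sum, sum_rep_erase A hA] at h1
  have h5 : (0 : ℝ) ≤ A.card := Nat.cast_nonneg _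
  nlinarith

/-- the relative variance for small moduli -/
theorem relv_le (d : ℕ) (hd : 1 ≤ d) (ε θ : ℝ) (hε : 0 < ε) (hε1 : ε ≤ 1) (hθ : θ = ε / (8 * d)) :
    ∀ᶠ x : ℝ in atTop, ∀ N : ℕ, (N : ℝ) = x → ∀ A : Finset (Fin d → ℤ), 2 ≤ A.card →
      excess A ((A.card : ℝ) ^ 2 / (N : ℝ) ^ d) ≤ (N : ℝ) ^ (-ε) * (A.card : ℝ) ^ 2 →
      ∀ q : ℕ, 1 ≤ q → (q : ℝ) ≤ (N : ℝ) ^ θ → ∃ u : ℕ, 0 < u ∧ q * u + q ≤ N ∧
        2 ^ d * (((q : ℝ) * u + q) / N) + Real.sqrt ((1 + 2 ^ d) * relv N q u A) ≤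
          (N : ℝ) ^ (-(θ / 3)) := by
  have hd1 : (1 : ℝ) ≤ d := by exact_mod_cast hd
  have hd0 : (0 : ℝ) < d := by linarith
  have hθ0 : 0 < θ := by rw [hθ]; positivity
  have hθ8 : θ * d * 8 = ε := by rw [hθ]; field_simp
  have hθε : 8 * θ ≤ ε := by nlinarith
  filter_upwards [eventually_ge_atTop (1 : ℝ), ev_pow (-θ) 0 2 (by linarith),
    ev_pow 0 (1 - 2 * θ) 2 (by linarith), ev_pow (-ε) 0 8 (by linarith),
    ev_pow (3 / 4) 1 2 (by norm_num),
    ev_pow (-θ) (-(θ / 3)) (2 * (2 ^ d * 2)) (by linarith),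
    ev_pow (-(θ / 2)) (-(θ / 3)) (2 * Real.sqrt ((1 + 2 ^ d) * (3 * 2 ^ d))) (by linarith)]
    with x hx1 e1 e2 e3 e6 e4 e5 N hNx A hA2 hex q hq hqN
  rw [hNx] at hex hqN ⊢
  rw [Real.rpow_zero] at e1 e2 e3
  have hx0 : 0 < x := by linarith
  have hN0 : (0 : ℝ) < N := by rw [hNx]; exact hx0
  have hmono : ∀ s t : ℝ, s ≤ t → x ^ s ≤ x ^ t := fun s t h =>
    Real.rpow_le_rpow_of_exponent_le hx1 h
  have hq0 : (0 : ℝ) < q := by exact_mod_cast hq
  set u : ℕ := ⌊x ^ (1 - 2 * θ)⌋₊ with hu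
  have hxd : x ≤ x ^ d := by
    calc x = x ^ 1 := (pow_one x).symm
      _ ≤ x ^ d := pow_le_pow_right₀ hx1 hd
  have hu1 : (u : ℝ) ≤ x ^ (1 - 2 * θ) := Nat.floor_le (by positivity)
  have hu2 : x ^ (1 - 2 * θ) / 2 ≤ u := by
    have := Nat.lt_floor_add_one (x ^ (1 - 2 * θ))
    rw [← hu] at this
    linarith
  have hu0 : (0 : ℝ) < u := by linarith
  have hxθ : x ^ θ * x ^ (1 - 2 * θ) = x * x ^ (-θ) := by
    rw [← Real.rpow_add hx0]
    nth_rewrite 2 [← Real.rpow_one x]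
    rw [← Real.rpow_add hx0]
    congr 1
    ring
  have hqu : (q : ℝ) * u ≤ x * x ^ (-θ) := by
    rw [← hxθ]
    exact mul_le_mul hqN hu1 hu0.le (by positivity)
  have hqq : (q : ℝ) ≤ x * x ^ (-θ) := by
    rw [← hxθ]
    have h1 : (1 : ℝ) ≤ x ^ (1 - 2 * θ) := by linarith
    calc (q : ℝ) ≤ x ^ θ * 1 := by rw [mul_one]; exact hqN
      _ ≤ _ := mul_le_mul_of_nonneg_left h1 (by positivity)
  have hsum : ((q : ℝ) * u + q) / x ≤ 2 * x ^ (-θ) := by
    rw [div_le_iff₀ hx0]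
    linarith
  refine ⟨u, by exact_mod_cast hu0, ?_, ?_⟩
  · have h1 : ((q * u + q : ℕ) : ℝ) ≤ N := by
      push_cast
      rw [hNx]
      have h2 := (div_le_iff₀ hx0).1 hsum
      nlinarith
    exact_mod_cast h1
  -- the relative variance
  have hA1 : (2 : ℝ) ≤ A.card := by exact_mod_cast hA2
  have hA0 : (0 : ℝ) < A.card := by linarith
  have hlam := card_large A hA2 ((A.card : ℝ) ^ 2 / (N : ℝ) ^ d) (by
    rw [hNx]
    refine lt_of_le_of_lt hex ?_
    have h1 : x ^ (-ε) ≤ 1 / 8 := by linarith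
    have h2 : 0 < (A.card : ℝ) ^ 2 := by positivity
    nlinarith)
  rw [hNx, le_div_iff₀ (by positivity)] at hlam
  have hud : x ^ d * x ^ (-(ε / 4)) / 2 ^ d ≤ (u : ℝ) ^ d := by
    have h1 : (x ^ (1 - 2 * θ) / 2) ^ d ≤ (u : ℝ) ^ d := pow_le_pow_left₀ (by positivity) hu2 d
    refine le_trans (le_of_eq ?_) h1
    rw [div_pow]
    congr 1
    rw [← Real.rpow_natCast (x ^ (1 - 2 * θ)), ← Real.rpow_mul hx0.le, ← Real.rpow_natCast x,
      ← Real.rpow_add hx0]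
    congr 1
    nlinarith
  have hud0 : 0 < (u : ℝ) ^ d := by positivity
  have hxe : x ^ d / (u : ℝ) ^ d ≤ 2 ^ d * x ^ (ε / 4) := by
    rw [div_le_iff₀ hud0]
    have h1 : 2 ^ d * x ^ (ε / 4) * (x ^ d * x ^ (-(ε / 4)) / 2 ^ d) = x ^ d := by
      have h2 : x ^ (ε / 4) * x ^ (-(ε / 4)) = 1 := by
        rw [← Real.rpow_add hx0, add_neg_cancel, Real.rpow_zero]
      have h3 : (2 : ℝ) ^ d ≠ 0 := by positivity
      calc 2 ^ d * x ^ (ε / 4) * (x ^ d * x ^ (-(ε / 4)) / 2 ^ d) =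
            (x ^ (ε / 4) * x ^ (-(ε / 4))) * x ^ d := by field_simp
        _ = x ^ d := by rw [h2, one_mul]
    calc x ^ d = 2 ^ d * x ^ (ε / 4) * (x ^ d * x ^ (-(ε / 4)) / 2 ^ d) := h1.symm
      _ ≤ _ := mul_le_mul_of_nonneg_left hud (by positivity)
  have hcardε : x ^ (3 / 8 : ℝ) ≤ A.card := by
    have h1 : (x ^ (3 / 8 : ℝ)) ^ 2 ≤ (A.card : ℝ) ^ 2 := by
      have h2 : (x ^ (3 / 8 : ℝ)) ^ 2 = x ^ (3 / 4 : ℝ) := by
        rw [← Real.rpow_natCast (x ^ (3 / 8 : ℝ)), ← Real.rpow_mul hx0.le]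
        norm_num
      rw [h2]
      rw [Real.rpow_one] at e6
      linarith
    exact le_of_sq_le_sq h1 hA0.le
  have hA2' : (0 : ℝ) < (A.card : ℝ) ^ 2 := by positivity
  have t1 : x ^ d / ((u : ℝ) ^ d * A.card) ≤ 2 ^ d * x ^ (-θ) := by
    rw [← div_div, div_le_iff₀ hA0]
    refine hxe.trans ?_
    rw [mul_assoc]
    apply mul_le_mul_of_nonneg_left _ (by positivity)
    calc x ^ (ε / 4) ≤ x ^ (-θ + 3 / 8) := hmono _ _ (by linarith)
      _ = x ^ (-θ) * x ^ (3 / 8 : ℝ) := Real.rpow_add hx0 _ _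
      _ ≤ _ := mul_le_mul_of_nonneg_left hcardε (by positivity)
  have t2 : excess A ((A.card : ℝ) ^ 2 / x ^ d) * x ^ d / ((u : ℝ) ^ d * (A.card : ℝ) ^ 2) ≤
      2 ^ d * x ^ (-θ) := by
    calc excess A ((A.card : ℝ) ^ 2 / x ^ d) * x ^ d / ((u : ℝ) ^ d * (A.card : ℝ) ^ 2) =
          (excess A ((A.card : ℝ) ^ 2 / x ^ d) / (A.card : ℝ) ^ 2) * (x ^ d / (u : ℝ) ^ d) := by
          field_simp
      _ ≤ x ^ (-ε) * (2 ^ d * x ^ (ε / 4)) := by
          apply mul_le_mul _ hxe (by positivity) (by positivity)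
          rw [div_le_iff₀ hA2']
          exact hex
      _ = 2 ^ d * x ^ (-ε + ε / 4) := by rw [Real.rpow_add hx0]; ring
      _ ≤ 2 ^ d * x ^ (-θ) := by
          apply mul_le_mul_of_nonneg_left (hmono _ _ (by linarith)) (by positivity)
  have t3 : (q : ℝ) * u / x ≤ x ^ (-θ) := by
    rw [div_le_iff₀ hx0]
    linarith
  have hrel : relv N q u A ≤ 3 * 2 ^ d * x ^ (-θ) := by
    unfold relv
    rw [hNx]
    have t3' := mul_le_mul_of_nonneg_left t3 (show (0 : ℝ) ≤ 2 ^ d by positivity)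
    linarith
  have h1 : Real.sqrt ((1 + 2 ^ d) * relv N q u A) ≤
      Real.sqrt ((1 + 2 ^ d) * (3 * 2 ^ d)) * x ^ (-(θ / 2)) := by
    have h2 : Real.sqrt ((1 + 2 ^ d) * (3 * 2 ^ d)) * x ^ (-(θ / 2)) =
        Real.sqrt ((1 + 2 ^ d) * (3 * 2 ^ d) * x ^ (-θ)) := by
      have h3 : Real.sqrt (x ^ (-θ)) = x ^ (-(θ / 2)) := by
        rw [Real.sqrt_eq_rpow, ← Real.rpow_mul hx0.le]
        congr 1
        ring
      rw [Real.sqrt_mul (show (0 : ℝ) ≤ (1 + 2 ^ d) * (3 * 2 ^ d) by positivity) (x ^ (-θ)), h3]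
    rw [h2]
    apply Real.sqrt_le_sqrt
    rw [mul_assoc]
    exact mul_le_mul_of_nonneg_left hrel (by positivity)
  have h2 : 2 ^ d * (((q : ℝ) * u + q) / x) ≤ 2 ^ d * (2 * x ^ (-θ)) :=
    mul_le_mul_of_nonneg_left hsum (by positivity)
  linarith

/-- **Many members of the set are good.** -/
theorem many (d : ℕ) (hd : 1 ≤ d) {ι : Type} (F : ι → MvPolynomial (Fin d) ℤ) (hF : Crit d F)
    (ε : ℝ) (hε : 0 < ε) (hε1 : ε ≤ 1) :
    ∃ δ : ℝ, 0 < δ ∧ ∃ κ : ℝ, 0 < κ ∧ ∀ᶠ x : ℝ in atTop, ∀ N : ℕ, (N : ℝ) = x →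
      ∀ (M : Fin d → ℤ) (A : Finset (Fin d → ℤ)), A ⊆ box M (fun j => M j + N) → 2 ≤ A.card →
      excess A ((A.card : ℝ) ^ 2 / (N : ℝ) ^ d) ≤ (N : ℝ) ^ (-ε) * (A.card : ℝ) ^ 2 →
      ∀ a b : Fin d → ℤ, (∀ j, M j ≤ a j ∧ a j ≤ b j ∧ b j ≤ M j + N) →
      (∀ j, (N : ℝ) ^ (1 - δ) ≤ (b j : ℝ) - a j) →
      ∃ G ⊆ A, (A.card : ℝ) * (N : ℝ) ^ (-ε) ≤ (G.card : ℝ) ∧
        ∀ v ∈ G, v ∈ box a b ∧ Good F (κ * ff N) ((N : ℝ) ^ ε) v := by
  classical
  obtain ⟨c, hc, Z₀, hcrit⟩ := hF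
  have hd1 : (1 : ℝ) ≤ d := by exact_mod_cast hd
  have hd0 : (0 : ℝ) < d := by linarith
  obtain ⟨θ, hθ⟩ : ∃ θ : ℝ, θ = ε / (8 * d) := ⟨_, rfl⟩
  have hθ0 : 0 < θ := by rw [hθ]; positivity
  have hθ8 : θ * d * 8 = ε := by rw [hθ]; field_simp
  have hθε : 8 * θ ≤ ε := by nlinarith
  obtain ⟨ζ, hζ⟩ : ∃ ζ : ℝ, ζ = θ / (12 * ((d : ℝ) + 1)) := ⟨_, rfl⟩
  have hζ0 : 0 < ζ := by rw [hζ]; positivity
  have hζd : ζ * (d + 1) = θ / 12 := by rw [hζ]; field_simp
  have hζθ : ζ ≤ θ := by nlinarith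
  refine ⟨θ / (12 * d), by positivity, c * (ζ / 32), by positivity, ?_⟩
  filter_upwards [relv_le d hd ε θ hε hε1 hθ, eventually_ge_atTop (1 : ℝ),
    ff_compare ζ hζ0 (by linarith), (tendsto_rpow_atTop hζ0).eventually_ge_atTop Z₀,
    ev_pow (-(θ / 3)) (-(θ / 12)) 2 (by linarith), ev_pow (-(θ / 6)) (-(θ / 12)) 2 (by linarith),
    ev_pow (-(θ / 6)) (-(θ / 12)) 8 (by linarith), ev_pow (-(θ / 6)) 0 2 (by linarith)]
    with x hrel hx1 hff hZ f1 f2 f3 f4 N hNx M A hAbox hA2 hex a b hab hlen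
  have hx0 : 0 < x := by linarith
  have hmono : ∀ s t : ℝ, s ≤ t → x ^ s ≤ x ^ t := fun s t h =>
    Real.rpow_le_rpow_of_exponent_le hx1 h
  have hA0 : A.Nonempty := card_pos.1 (by omega)
  have hA1 : (0 : ℝ) < A.card := by exact_mod_cast hA0.card_pos
  have hN0 : 0 < N := by
    have : (0 : ℝ) < N := by rw [hNx]; exact hx0
    exact_mod_cast this
  rw [Real.rpow_zero] at f4
  -- the distribution
  set P : ℝ := ∏ j, (((b j : ℝ) - a j) / N) with hP
  have hdist : ∀ q : ℕ, 1 ≤ q → (q : ℝ) ≤ x ^ θ → ∀ r : Fin d → ℤ,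
      |((A.filter (fun v => v ∈ cls q r a b)).card : ℝ) - A.card * (P / (q : ℝ) ^ d)| ≤
        A.card * x ^ (-(θ / 3)) := by
    intro q hq hqx r
    obtain ⟨u, hu, hqu, h1⟩ := hrel N hNx A hA2 hex q hq (by rw [hNx]; exact hqx)
    rw [hNx] at h1
    have h2 := dist N q u hN0 hq hu hqu M A hAbox hA0 a b hab r
    rw [← hP] at h2
    refine h2.trans ?_
    rw [hNx]
    exact mul_le_mul_of_nonneg_left h1 hA1.le
  have hP0 : x ^ (-(θ / 12)) ≤ P := by
    have h1 : x ^ (-(θ / 12)) = ∏ _j : Fin d, x ^ (-(θ / (12 * d))) := by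
      rw [prod_const, card_univ, Fintype.card_fin, ← Real.rpow_natCast, ← Real.rpow_mul hx0.le]
      congr 1
      field_simp
    rw [h1, hP]
    apply prod_le_prod (fun _ _ => by positivity)
    intro j _
    rw [hNx, le_div_iff₀ hx0]
    have h2 := hlen j
    rw [hNx] at h2
    refine le_trans (le_of_eq ?_) h2
    nth_rewrite 2 [← Real.rpow_one x]
    rw [← Real.rpow_add hx0]
    congr 1
    ring
  set s₀ : Finset (Fin d → ℤ) := A.filter (fun v => v ∈ box a b) with hs₀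
  have hcls1 : A.filter (fun v => v ∈ cls 1 0 a b) = s₀ := by
    rw [hs₀]
    congr 1
    ext v
    rw [mem_cls, mem_box]
    simp
  have hd1' := hdist 1 le_rfl (by
    push_cast
    exact Real.one_le_rpow hx1 hθ0.le) 0
  rw [hcls1] at hd1'
  simp only [Nat.cast_one, one_pow, div_one] at hd1'
  have hs₀big : (A.card : ℝ) * x ^ (-(θ / 12)) / 2 ≤ s₀.card := by
    have h1 := (abs_le.1 hd1').1
    have h2 := mul_le_mul_of_nonneg_left hP0 hA1.le
    have h3 := mul_le_mul_of_nonneg_left f1 hA1.le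
    linarith
  have hs₀big' : (A.card : ℝ) * x ^ (-(θ / 6)) ≤ s₀.card := by
    have h3 := mul_le_mul_of_nonneg_left f2 hA1.le
    linarith
  have hs₀0 : (0 : ℝ) < s₀.card := lt_of_lt_of_le (by positivity) hs₀big'
  have hdist2 : ∀ q : ℕ, 1 ≤ q → (q : ℝ) ≤ x ^ θ → ∀ r : Fin d → ℤ,
      |((s₀.filter (fun v => ∀ j, (q : ℤ) ∣ v j - r j)).card : ℝ) - s₀.card / (q : ℝ) ^ d| ≤
        2 * (s₀.card * x ^ (-(θ / 6))) := by
    intro q hq hqx r
    have h1 := hdist q hq hqx r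
    have h2 : A.filter (fun v => v ∈ cls q r a b) = s₀.filter (fun v => ∀ j, (q : ℤ) ∣ v j - r j) := by
      ext v
      rw [hs₀]
      simp only [mem_filter, mem_cls, mem_box]
      tauto
    rw [h2] at h1
    have hq1 : (1 : ℝ) ≤ (q : ℝ) ^ d := one_le_pow₀ (by exact_mod_cast hq)
    have h3 : |(A.card : ℝ) * (P / (q : ℝ) ^ d) - s₀.card / (q : ℝ) ^ d| ≤
        A.card * x ^ (-(θ / 3)) := by
      have : (A.card : ℝ) * (P / (q : ℝ) ^ d) - s₀.card / (q : ℝ) ^ d =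
          -((s₀.card - A.card * P) / (q : ℝ) ^ d) := by ring
      rw [this, abs_neg, abs_div, abs_of_pos (show (0 : ℝ) < (q : ℝ) ^ d by linarith)]
      exact (div_le_self (abs_nonneg _) hq1).trans hd1'
    have h4 : (A.card : ℝ) * x ^ (-(θ / 3)) ≤ s₀.card * x ^ (-(θ / 6)) := by
      have h5 : x ^ (-(θ / 3)) = x ^ (-(θ / 6)) * x ^ (-(θ / 6)) := by
        rw [← Real.rpow_add hx0]
        congr 1
        ring
      rw [h5, ← mul_assoc]
      exact mul_le_mul_of_nonneg_right hs₀big' (by positivity)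
    have h6 := abs_sub_le ((s₀.filter (fun v => ∀ j, (q : ℤ) ∣ v j - r j)).card : ℝ)
      ((A.card : ℝ) * (P / (q : ℝ) ^ d)) (s₀.card / (q : ℝ) ^ d)
    linarith
  -- the good members
  set G : Finset (Fin d → ℤ) := s₀.filter (fun v => Good F (c * (ζ / 32) * ff N) ((N : ℝ) ^ ε) v)
    with hG
  have hGs : G ⊆ s₀ := filter_subset _ _
  refine ⟨G, hGs.trans (filter_subset _ _), ?_, ?_⟩
  swap
  · intro v hv
    rw [hG, mem_filter, hs₀, mem_filter] at hv
    exact ⟨hv.1.2, hv.2⟩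
  have hkey : (s₀.card : ℝ) * x ^ (-(θ / 6)) ≤ G.card := by
    by_contra hlt
    rw [not_le] at hlt
    set t : Finset (Fin d → ℤ) := s₀ \ G with ht
    have htcard : (t.card : ℝ) = s₀.card - G.card := by
      rw [ht, card_sdiff_of_subset hGs, Nat.cast_sub (card_le_card hGs)]
    have htbig : (s₀.card : ℝ) / 2 ≤ t.card := by
      rw [htcard]
      have := mul_le_mul_of_nonneg_left f4 hs₀0.le
      linarith
    have ht0 : t.Nonempty := by
      rw [← card_pos]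
      have : (0 : ℝ) < t.card := by linarith
      exact_mod_cast this
    have hwd : WellDist (x ^ ζ) t (fun v => v) := by
      intro q hq hqx r
      have h1 := hdist2 q hq (hqx.trans (hmono _ _ hζθ)) r
      have h2 : (t.filter (fun v => ∀ j, (q : ℤ) ∣ v j - r j)) =
          (s₀.filter (fun v => ∀ j, (q : ℤ) ∣ v j - r j)) \
            (G.filter (fun v => ∀ j, (q : ℤ) ∣ v j - r j)) := by
        ext v
        rw [ht]
        simp only [mem_filter, Finset.mem_sdiff]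
        tauto
      have h3 : ((t.filter (fun v => ∀ j, (q : ℤ) ∣ v j - r j)).card : ℝ) =
          (s₀.filter (fun v => ∀ j, (q : ℤ) ∣ v j - r j)).card -
            (G.filter (fun v => ∀ j, (q : ℤ) ∣ v j - r j)).card := by
        rw [h2, card_sdiff_of_subset (filter_subset_filter _ hGs),
          Nat.cast_sub (card_le_card (filter_subset_filter _ hGs))]
      have h4 : ((G.filter (fun v => ∀ j, (q : ℤ) ∣ v j - r j)).card : ℝ) ≤ G.card := by
        exact_mod_cast card_le_card (filter_subset _ _)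
      have h5 : (0 : ℝ) ≤ ((G.filter (fun v => ∀ j, (q : ℤ) ∣ v j - r j)).card : ℝ) :=
        Nat.cast_nonneg _
      have hq1 : (1 : ℝ) ≤ (q : ℝ) ^ d := one_le_pow₀ (by exact_mod_cast hq)
      have h6 : (G.card : ℝ) / (q : ℝ) ^ d ≤ G.card := div_le_self (Nat.cast_nonneg _) hq1
      have h7 : (0 : ℝ) ≤ (G.card : ℝ) / (q : ℝ) ^ d := by positivity
      have h8 : (t.card : ℝ) / (q : ℝ) ^ d = s₀.card / (q : ℝ) ^ d - G.card / (q : ℝ) ^ d := by
        rw [htcard, sub_div]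
      have h9 : |((t.filter (fun v => ∀ j, (q : ℤ) ∣ v j - r j)).card : ℝ) -
          t.card / (q : ℝ) ^ d| ≤ 4 * (s₀.card * x ^ (-(θ / 6))) := by
        rw [h3, h8]
        have h10 := abs_le.1 h1
        rw [abs_le]
        constructor <;> linarith [h10.1, h10.2]
      refine h9.trans ?_
      have h11 : (x ^ ζ) ^ (-((d : ℝ) + 1)) = x ^ (-(θ / 12)) := by
        rw [← Real.rpow_mul hx0.le]
        congr 1
        linarith
      rw [h11]
      have h12 : 4 * (s₀.card * x ^ (-(θ / 6))) ≤ t.card * (8 * x ^ (-(θ / 6))) := by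
        have h13 : (0 : ℝ) ≤ x ^ (-(θ / 6)) := by positivity
        nlinarith
      exact h12.trans (mul_le_mul_of_nonneg_left f3 (Nat.cast_nonneg _))
    obtain ⟨v, hv, hv2⟩ := hcrit (x ^ ζ) hZ _ t (fun v => v) ht0 hwd
    rw [ht, Finset.mem_sdiff] at hv
    apply hv.2
    rw [hG, mem_filter]
    refine ⟨hv.1, fun j n hn => ?_⟩
    have hle : c * (ζ / 32) * ff N ≤ c * ff (x ^ ζ) := by
      rw [hNx]
      have h1 := (hff.2 (x ^ ζ) le_rfl (by
        calc x ^ ζ ≤ x ^ (2 : ℝ) := hmono _ _ (by linarith)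
          _ = x ^ 2 := by norm_num)).1
      calc c * (ζ / 32) * ff x = c * (ζ / 32 * ff x) := by ring
        _ ≤ _ := mul_le_mul_of_nonneg_left h1 hc.le
    obtain ⟨p, hp, hp1, hp2⟩ := hv2 j n (hn.trans hle)
    refine ⟨p, hp, hp1.trans ?_, hp2⟩
    rw [hNx, ← Real.rpow_mul hx0.le]
    apply hmono
    linarith
  refine le_trans ?_ hkey
  rw [hNx]
  calc (A.card : ℝ) * x ^ (-ε) ≤ A.card * x ^ (-(θ / 6) + -(θ / 6)) := by
        apply mul_le_mul_of_nonneg_left (hmono _ _ (by linarith)) hA1.le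
    _ = A.card * x ^ (-(θ / 6)) * x ^ (-(θ / 6)) := by rw [Real.rpow_add hx0]; ring
    _ ≤ _ := mul_le_mul_of_nonneg_right hs₀big' (by positivity)

end Pool.Agent.U55.SD
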