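import Mathlib

set_option autoImplicit false

/-! # Sets with few differences in common: the variance of the number of points in translates

Let `A` and `J` be finite subsets of an additive commutative group and `c t` the number of the
`j ∈ J` with `t + j ∈ A`.  If the number `rep A h` of representations of `h ≠ 0` as a difference of
two members of `A` is at most `lam` up to an average excess, then `c` is nearly constant. -/

namespace Pool.Agent.U55.SD

open Finset

variable {G : Type*} [AddCommGroup G] [DecidableEq G]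

/-- The number of representations of `h` as a difference `y - x` of two members `x`, `y` of `A`. -/
def rep (A : Finset G) (h : G) : ℕ := (A.filter (fun x => x + h ∈ A)).card

/-- The total excess of the numbers of representations of the differences `h ≠ 0` over `lam`. -/
noncomputable def excess (A : Finset G) (lam : ℝ) : ℝ :=
  ∑ h ∈ ((A ×ˢ A).image (fun z => z.2 - z.1)).erase 0, max ((rep A h : ℝ) - lam) 0

/-- The number of the `j ∈ J` with `t + j ∈ A`. -/
def cnt (A J : Finset G) (t : G) : ℕ := (J.filter (fun j => t + j ∈ A)).card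

lemma cnt_eq_sum (A J : Finset G) (t : G) :
    (cnt A J t : ℝ) = ∑ j ∈ J, if t + j ∈ A then (1 : ℝ) else 0 := by
  unfold cnt
  rw [card_filter]
  push_cast
  rfl

lemma rep_zero (A : Finset G) : rep A 0 = A.card := by
  unfold rep
  congr 1
  apply filter_true_of_mem
  intro x hx
  rwa [add_zero]

lemma rep_eq_zero (A : Finset G) (h : G) (hh : h ∉ (A ×ˢ A).image (fun z => z.2 - z.1)) :
    rep A h = 0 := by
  unfold rep
  rw [card_eq_zero, filter_eq_empty_iff]
  intro x hx hx2
  apply hh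
  rw [mem_image]
  exact ⟨(x, x + h), mem_product.2 ⟨hx, hx2⟩, by simp⟩

lemma excess_nonneg (A : Finset G) (lam : ℝ) : 0 ≤ excess A lam :=
  sum_nonneg fun _ _ => le_max_right _ _

/-- sums of the excess over any set of nonzero differences -/
lemma sum_le_excess (A : Finset G) (lam : ℝ) (hlam : 0 ≤ lam) (S : Finset G) (hS : 0 ∉ S) :
    ∑ h ∈ S, max ((rep A h : ℝ) - lam) 0 ≤ excess A lam := by
  classical
  unfold excess
  set D := (A ×ˢ A).image (fun z => z.2 - z.1) with hD
  have h1 : ∑ h ∈ S, max ((rep A h : ℝ) - lam) 0 = ∑ h ∈ S.filter (fun h => h ∈ D),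
      max ((rep A h : ℝ) - lam) 0 := by
    rw [sum_filter]
    refine sum_congr rfl fun h _ => ?_
    split_ifs with hh
    · rfl
    · rw [rep_eq_zero A h hh, max_eq_right]
      push_cast
      linarith
  rw [h1]
  apply sum_le_sum_of_subset_of_nonneg
  · intro h hh
    rw [mem_filter] at hh
    rw [mem_erase]
    refine ⟨?_, hh.2⟩
    rintro rfl
    exact hS hh.1
  · intro _ _ _
    exact le_max_right _ _

lemma sum_cnt (A J T : Finset G) (hT : ∀ a ∈ A, ∀ j ∈ J, a - j ∈ T) :
    ∑ t ∈ T, (cnt A J t : ℝ) = J.card * A.card := by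
  simp only [cnt_eq_sum]
  rw [sum_comm]
  rw [sum_congr rfl (g := fun _ => (A.card : ℝ))]
  · rw [sum_const, nsmul_eq_mul]
  intro j hj
  rw [← sum_filter, sum_const, nsmul_eq_mul, mul_one]
  congr 1
  apply card_bij (fun t _ => t + j)
  · intro t ht
    exact (mem_filter.1 ht).2
  · intro t _ t' _ h
    exact add_right_cancel h
  · intro a ha
    refine ⟨a - j, ?_, by simp⟩
    rw [mem_filter]
    exact ⟨hT a ha j hj, by simpa using ha⟩

lemma sum_pair (A T : Finset G) (j j' : G) :
    ∑ t ∈ T, ((if t + j ∈ A then (1 : ℝ) else 0) * (if t + j' ∈ A then (1 : ℝ) else 0)) ≤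
      rep A (j' - j) := by
  have h1 : ∀ t, ((if t + j ∈ A then (1 : ℝ) else 0) * (if t + j' ∈ A then (1 : ℝ) else 0)) =
      if (t + j ∈ A ∧ t + j' ∈ A) then 1 else 0 := by
    intro t
    by_cases h1 : t + j ∈ A <;> by_cases h2 : t + j' ∈ A <;> simp [h1, h2]
  simp only [h1]
  rw [← sum_filter, sum_const, nsmul_eq_mul, mul_one]
  norm_cast
  unfold rep
  apply card_le_card_of_injOn (fun t => t + j)
  · intro t ht
    have ht' := (mem_filter.1 (mem_coe.1 ht)).2
    rw [mem_coe, mem_filter]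
    refine ⟨ht'.1, ?_⟩
    have : t + j + (j' - j) = t + j' := by abel
    rw [this]
    exact ht'.2
  · intro t _ t' _ h
    exact add_right_cancel h

lemma sum_cnt_sq (A J T : Finset G) (lam : ℝ) (hlam : 0 ≤ lam) :
    ∑ t ∈ T, (cnt A J t : ℝ) ^ 2 ≤
      J.card * A.card + (J.card : ℝ) ^ 2 * lam + J.card * excess A lam := by
  have h1 : ∀ t, (cnt A J t : ℝ) ^ 2 = ∑ j ∈ J, ∑ j' ∈ J,
      ((if t + j ∈ A then (1 : ℝ) else 0) * (if t + j' ∈ A then (1 : ℝ) else 0)) := by
    intro t
    rw [cnt_eq_sum, sq, sum_mul_sum]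
  simp only [h1]
  rw [sum_comm]
  have h2 : ∀ j ∈ J, ∑ t ∈ T, ∑ j' ∈ J,
      ((if t + j ∈ A then (1 : ℝ) else 0) * (if t + j' ∈ A then (1 : ℝ) else 0)) ≤
      A.card + J.card * lam + excess A lam := by
    intro j hj
    rw [sum_comm]
    rw [← add_sum_erase _ _ hj]
    have h3 := sum_pair A T j j
    rw [sub_self, rep_zero] at h3
    have h4 : ∑ j' ∈ J.erase j, ∑ t ∈ T,
        ((if t + j ∈ A then (1 : ℝ) else 0) * (if t + j' ∈ A then (1 : ℝ) else 0)) ≤
        ∑ j' ∈ J.erase j, (lam + max ((rep A (j' - j) : ℝ) - lam) 0) := by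
      apply sum_le_sum
      intro j' _
      refine (sum_pair A T j j').trans ?_
      have := le_max_left ((rep A (j' - j) : ℝ) - lam) 0
      linarith
    rw [sum_add_distrib, sum_const, nsmul_eq_mul] at h4
    have h5 : ∑ j' ∈ J.erase j, max ((rep A (j' - j) : ℝ) - lam) 0 ≤ excess A lam := by
      have h6 : ∑ j' ∈ J.erase j, max ((rep A (j' - j) : ℝ) - lam) 0 =
          ∑ h ∈ (J.erase j).image (fun j' => j' - j), max ((rep A h : ℝ) - lam) 0 := by
        rw [sum_image]
        intro x _ y _ h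
        exact sub_left_injective h
      rw [h6]
      apply sum_le_excess A lam hlam
      rw [mem_image]
      rintro ⟨j', hj', h⟩
      rw [mem_erase] at hj'
      exact hj'.1 (sub_eq_zero.1 h)
    have h7 : ((J.erase j).card : ℝ) * lam ≤ J.card * lam := by
      apply mul_le_mul_of_nonneg_right _ hlam
      exact_mod_cast card_le_card (erase_subset _ _)
    linarith
  refine (sum_le_sum h2).trans (le_of_eq ?_)
  rw [sum_const, nsmul_eq_mul]
  ring

/-- The variance bound. -/
theorem variance (A J T : Finset G) (hT : ∀ a ∈ A, ∀ j ∈ J, a - j ∈ T) (lam mu : ℝ)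
    (hlam : 0 ≤ lam) :
    ∑ t ∈ T, ((cnt A J t : ℝ) - mu) ^ 2 ≤
      J.card * A.card + (J.card : ℝ) ^ 2 * lam + J.card * excess A lam -
        2 * mu * (J.card * A.card) + mu ^ 2 * T.card := by
  have h1 : ∑ t ∈ T, ((cnt A J t : ℝ) - mu) ^ 2 =
      ∑ t ∈ T, (cnt A J t : ℝ) ^ 2 - 2 * mu * ∑ t ∈ T, (cnt A J t : ℝ) + mu ^ 2 * T.card := by
    rw [mul_sum, ← sum_sub_distrib, mul_comm (mu ^ 2), ← nsmul_eq_mul, ← sum_const,
      ← sum_add_distrib]
    refine sum_congr rfl fun t _ => ?_
    ring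
  rw [h1, sum_cnt A J T hT]
  have := sum_cnt_sq A J T lam hlam
  linarith

/-- an upper bound for the number of points in a part of the set -/
theorem upper (A J T T' S : Finset G) (hT' : T' ⊆ T) (hSA : S ⊆ A)
    (hS : ∀ a ∈ S, ∀ j ∈ J, a - j ∈ T') (mu V : ℝ)
    (hV : ∑ t ∈ T, ((cnt A J t : ℝ) - mu) ^ 2 ≤ V) :
    (J.card : ℝ) * S.card ≤ mu * T'.card + Real.sqrt (T'.card * V) := by
  have h1 : (J.card : ℝ) * S.card ≤ ∑ t ∈ T', (cnt A J t : ℝ) := by
    rw [← sum_cnt S J T' hS]
    apply sum_le_sum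
    intro t _
    unfold cnt
    norm_cast
    apply card_le_card
    intro j hj
    rw [mem_filter] at hj ⊢
    exact ⟨hj.1, hSA hj.2⟩
  have h2 : ∑ t ∈ T', (cnt A J t : ℝ) = mu * T'.card + ∑ t ∈ T', ((cnt A J t : ℝ) - mu) := by
    rw [sum_sub_distrib, sum_const, nsmul_eq_mul]
    ring
  have h3 : (∑ t ∈ T', ((cnt A J t : ℝ) - mu)) ^ 2 ≤ T'.card * V := by
    refine (sq_sum_le_card_mul_sum_sq).trans ?_
    apply mul_le_mul_of_nonneg_left _ (Nat.cast_nonneg _)
    exact (sum_le_sum_of_subset_of_nonneg hT' (fun _ _ _ => sq_nonneg _)).trans hV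
  have h4 := Real.le_sqrt_of_sq_le h3
  linarith

/-- a lower bound for the number of points in a part of the set -/
theorem lower (A J T T' S : Finset G) (hT' : T' ⊆ T)
    (hS : ∀ t ∈ T', ∀ j ∈ J, t + j ∈ A → t + j ∈ S) (mu V : ℝ)
    (hV : ∑ t ∈ T, ((cnt A J t : ℝ) - mu) ^ 2 ≤ V) :
    mu * T'.card - Real.sqrt (T'.card * V) ≤ (J.card : ℝ) * S.card := by
  classical
  have h1 : ∑ t ∈ T', (cnt A J t : ℝ) ≤ (J.card : ℝ) * S.card := by
    have h0 : ∑ t ∈ T' ∪ (S ×ˢ J).image (fun z => z.1 - z.2), (cnt S J t : ℝ) =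
        (J.card : ℝ) * S.card := by
      apply sum_cnt
      intro a ha j hj
      rw [mem_union]
      right
      rw [mem_image]
      exact ⟨(a, j), mem_product.2 ⟨ha, hj⟩, rfl⟩
    rw [← h0]
    refine le_trans ?_ (sum_le_sum_of_subset_of_nonneg subset_union_left
      (fun _ _ _ => Nat.cast_nonneg _))
    apply sum_le_sum
    intro t ht
    unfold cnt
    norm_cast
    apply card_le_card
    intro j hj
    rw [mem_filter] at hj ⊢
    exact ⟨hj.1, hS t ht j hj.1 hj.2⟩
  have h2 : ∑ t ∈ T', (cnt A J t : ℝ) = mu * T'.card + ∑ t ∈ T', ((cnt A J t : ℝ) - mu) := by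
    rw [sum_sub_distrib, sum_const, nsmul_eq_mul]
    ring
  have h3 : (-∑ t ∈ T', ((cnt A J t : ℝ) - mu)) ^ 2 ≤ T'.card * V := by
    rw [neg_sq]
    refine (sq_sum_le_card_mul_sum_sq).trans ?_
    apply mul_le_mul_of_nonneg_left _ (Nat.cast_nonneg _)
    exact (sum_le_sum_of_subset_of_nonneg hT' (fun _ _ _ => sq_nonneg _)).trans hV
  have h4 := Real.le_sqrt_of_sq_le h3
  linarith

end Pool.Agent.U55.SD
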